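import Pool.Agent.H24.LV.Defs

/-!
# The arithmetic majorant: targets (helper26)

For `F ∈ ℤ[X]` of degree at most `k` whose coefficients of degree at least two are prime to `q`, the
numbers `|E_z e((F(z) - l z)/q)|²` are majorised by a sum of multiples of indicator functions of
residue classes modulo `q / T`, `T ∣ q`. Rows: QUA WEM DSR TER DOM NGA NGB VAL FLT TRE MJS PPA PPB
MUL DIV ARP ARI.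
-/

set_option autoImplicit false

open Finset Polynomial

namespace Pool.Agent.H26.LV

/-- `exp (2 π i n / q)` -/
noncomputable def ee (q : ℕ) (n : ℤ) : ℂ :=
  Complex.exp (2 * Real.pi * Complex.I * ((n : ℂ) / (q : ℂ)))

/-- the normalised exponential sum of the polynomial `G` modulo `q` -/
noncomputable def SS (q : ℕ) (G : ℤ[X]) : ℂ := (1 / (q : ℂ)) * ∑ z ∈ range q, ee q (G.eval (z : ℤ))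

/-- `|E_z e((F(z) - l z)/q)|²` -/
noncomputable def AA (q : ℕ) (F : ℤ[X]) (l : ℤ) : ℝ := ‖SS q (F - C l * X)‖ ^ 2

/-- `A` is majorised by a family of residue classes -/
def Maj (q : ℕ) (A : ℤ → ℝ) (S₁ S₂ : ℝ) : Prop :=
  ∃ (n : ℕ) (a : Fin n → ℝ) (T : Fin n → ℕ) (x : Fin n → ℤ),
    (∀ c, 0 ≤ a c ∧ T c ∣ q) ∧
    (∀ l : ℤ, A l ≤ ∑ c, if ((q / T c : ℕ) : ℤ) ∣ l - x c then a c else 0) ∧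
    ∑ c, a c * T c ≤ S₁ ∧ ∑ c, a c ≤ S₂

/-- the coefficients of degree at least two are not all divisible by `p` -/
def Prm (p : ℕ) (F : ℤ[X]) : Prop := ∃ j, 2 ≤ j ∧ ¬ (p : ℤ) ∣ F.coeff j

/-- the coefficients of degree at least two are divisible by `p ^ v` -/
def Vge (p v : ℕ) (G : ℤ[X]) : Prop := ∀ j, 2 ≤ j → (p : ℤ) ^ v ∣ G.coeff j

/-- the quadratic term dominates the terms of higher degree with margin `μ` -/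
def Gen (p μ w : ℕ) (G : ℤ[X]) : Prop :=
  (p : ℤ) ^ w ∣ G.coeff 2 ∧ ¬ (p : ℤ) ^ (w + 1) ∣ G.coeff 2 ∧
    ∀ j, 3 ≤ j → (p : ℤ) ^ (w + μ) ∣ G.coeff j

/-- the constant term dominates -/
def Dom (p : ℕ) (G : ℤ[X]) : Prop :=
  ∃ w : ℕ, (p : ℤ) ^ w ∣ G.coeff 0 ∧ ¬ (p : ℤ) ^ (w + 1) ∣ G.coeff 0 ∧
    ∀ s, 1 ≤ s → (p : ℤ) ^ (w + 1) ∣ G.coeff s

/-- the polynomial `F` on the disc `y + p ^ i ℤ` -/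
noncomputable def dsc (p i : ℕ) (y : ℤ) (F : ℤ[X]) : ℤ[X] := F.comp (C y + C ((p : ℤ) ^ i) * X)

/-- the part of the disc `y + p ^ i ℤ` in the exponential sum modulo `p ^ m` -/
noncomputable def cD (p m i : ℕ) (y : ℤ) (F : ℤ[X]) (l : ℤ) : ℂ :=
  (1 / (p : ℂ) ^ m) * ∑ z ∈ range (p ^ (m - i)), ee (p ^ m) ((dsc p i y (F - C l * X)).eval (z : ℤ))

/-- QUA: quadratic sums. -/
def T_QUA : Prop := ∀ (p n μ : ℕ) (g : ℤ[X]), p.Prime → (μ = 2 ∨ p ≠ 2 ∧ μ = 1) →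
  ¬ (p : ℤ) ∣ g.coeff 2 → (∀ j, 3 ≤ j → (p : ℤ) ^ μ ∣ g.coeff j) →
  ‖SS (p ^ n) g‖ ^ 2 ≤ 2 / (p : ℝ) ^ n

/-- WEM: the bound of Weil. -/
def T_WEM : Prop := ∀ (k p : ℕ) (g : ℤ[X]), p.Prime → k < p → g.natDegree ≤ k → Prm p g →
  ‖SS p g‖ ^ 2 ≤ (k : ℝ) ^ 2 / p

/-- DSR: reduction of the sum over a disc. -/
def T_DSR : Prop := ∀ (p m i v : ℕ) (G : ℤ[X]), p.Prime → i ≤ v → v ≤ m → Vge p v G →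
  (p : ℤ) ^ i ∣ G.coeff 1 →
  (¬ (p : ℤ) ^ v ∣ G.coeff 1 →
    ∑ z ∈ range (p ^ (m - i)), ee (p ^ m) (G.eval (z : ℤ)) = 0) ∧
  ∀ (g : ℤ[X]) (c₀ : ℤ), G = C c₀ + C ((p : ℤ) ^ v) * g →
    ‖(1 / (p : ℂ) ^ m) * ∑ z ∈ range (p ^ (m - i)), ee (p ^ m) (G.eval (z : ℤ))‖ =
      (1 / (p : ℝ) ^ i) * ‖SS (p ^ (m - v)) g‖

/-- TER: the terminal discs. -/
def T_TER : Prop := ∀ k : ℕ, 2 ≤ k → ∃ C₀ : ℝ, 1 ≤ C₀ ∧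
  ∀ (p m i v μ : ℕ) (y : ℤ) (F : ℤ[X]) (l : ℤ), p.Prime → F.natDegree ≤ k → i ≤ v → v ≤ m →
  Vge p v (dsc p i y F) →
  (v = m ∨ (v + 1 = m ∧ ¬ Vge p (v + 1) (dsc p i y F)) ∨
    ((μ = 2 ∨ p ≠ 2 ∧ μ = 1) ∧ Gen p μ v (dsc p i y F))) →
  ‖cD p m i y F l‖ ^ 2 ≤
    if (p : ℤ) ^ (v - i) ∣ l - (derivative F).eval y then C₀ / (p : ℝ) ^ (2 * i + (m - v)) else 0

open Classical in
/-- DOM: few discs are not dominated by the constant term. -/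
def T_DOM : Prop := ∀ (d p i : ℕ) (H : ℤ[X]), p.Prime → H ≠ 0 → H.natDegree ≤ d →
  ((range (p ^ i)).filter fun y => ¬ Dom p (dsc p i (y : ℤ) H)).card ≤ d

open Classical in
/-- NGA: few discs are not generic, large primes. -/
def T_NGA : Prop := ∀ (k p i : ℕ) (F : ℤ[X]), p.Prime → k < p → F.natDegree ≤ k → Prm p F →
  ((range (p ^ i)).filter fun y => ¬ ∃ w, Gen p 1 w (dsc p i (y : ℤ) F)).card ≤ k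

open Classical in
/-- NGB: few discs are not generic, small primes. -/
def T_NGB : Prop := ∀ k : ℕ, ∃ C₀ : ℕ, ∀ (p i : ℕ) (F : ℤ[X]), p.Prime → p ≤ k →
  F.natDegree ≤ k → Prm p F →
  ((range (p ^ i)).filter fun y => ¬ ∃ w, Gen p 2 w (dsc p i (y : ℤ) F)).card ≤ C₀

/-- VAL: valuations on discs. -/
def T_VAL : Prop :=
  (∀ (p i : ℕ) (y t : ℤ) (F : ℤ[X]),
    dsc p (i + 1) (y + (p : ℤ) ^ i * t) F = dsc p 1 t (dsc p i y F)) ∧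
  (∀ (p i j : ℕ) (y : ℤ) (F : ℤ[X]),
    (dsc p i y F).coeff j = (p : ℤ) ^ (i * j) * (hasseDeriv j F).eval y) ∧
  (∀ (p i : ℕ) (y : ℤ) (F : ℤ[X]), Vge p (2 * i) (dsc p i y F)) ∧
  (∀ (p v : ℕ) (t : ℤ) (G : ℤ[X]), Vge p v G → Vge p (v + 2) (dsc p 1 t G)) ∧
  (∀ (p μ w : ℕ) (t : ℤ) (G : ℤ[X]), p.Prime → 1 ≤ μ → Gen p μ w G →
    Gen p μ (w + 2) (dsc p 1 t G)) ∧
  ∀ (k p i v : ℕ) (y : ℤ) (F : ℤ[X]), p.Prime → F.natDegree ≤ k → Prm p F →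
    Vge p v (dsc p i y F) → v ≤ k * i

/-- FLT: the flat children of a disc. -/
def T_FLT : Prop := ∀ k : ℕ, 2 ≤ k → ∃ C₀ : ℝ, 1 ≤ C₀ ∧
  ∀ (p m i v : ℕ) (y : ℤ) (F : ℤ[X]), p.Prime → k < p → F.natDegree ≤ k → i ≤ v → v + 2 ≤ m →
  Vge p v (dsc p i y F) → ¬ Vge p (v + 1) (dsc p i y F) →
  ∃ Fl : Finset ℕ, Fl ⊆ range p ∧ (range p \ Fl).card ≤ k ∧
    (∀ t ∈ Fl, Gen p 1 (v + 2) (dsc p (i + 1) (y + (p : ℤ) ^ i * (t : ℤ)) F)) ∧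
    ∀ l : ℤ, ‖∑ t ∈ Fl, cD p m (i + 1) (y + (p : ℤ) ^ i * (t : ℤ)) F l‖ ^ 2 ≤
      if (p : ℤ) ^ (v - i) ∣ l - (derivative F).eval y then C₀ / (p : ℝ) ^ (2 * i + (m - v)) else 0

open Classical in
/-- TRE: decomposition along the tree of discs. -/
def T_TRE : Prop := ∀ (p m : ℕ) (F : ℤ[X]) (l : ℤ) (Nt : ℕ → ℕ → Prop), p.Prime →
  (∀ i y t, Nt (i + 1) (y + p ^ i * t) → Nt i y) → (∀ y, ¬ Nt m y) → Nt 0 0 →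
  SS (p ^ m) (F - C l * X) = ∑ i ∈ range m, ∑ y ∈ (range (p ^ i)).filter (fun y => Nt i y),
    ∑ t ∈ (range p).filter (fun t => ¬ Nt (i + 1) (y + p ^ i * t)),
      cD p m (i + 1) ((y : ℤ) + (p : ℤ) ^ i * (t : ℤ)) F l

/-- MJS: a sum of few functions on residue classes. -/
def T_MJS : Prop := ∀ (q n : ℕ) (I : Type) (s : Finset I) (u : I → ℤ → ℂ) (a : I → ℝ)
  (T : I → ℕ) (x : I → ℤ) (B₁ B₂ : ℝ), s.card ≤ n → 0 ≤ B₁ → 0 ≤ B₂ →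
  (∀ c ∈ s, 0 ≤ a c ∧ T c ∣ q ∧ a c * T c ≤ B₁ ∧ a c ≤ B₂ ∧
    ∀ l : ℤ, ‖u c l‖ ^ 2 ≤ if ((q / T c : ℕ) : ℤ) ∣ l - x c then a c else 0) →
  Maj q (fun l => ‖∑ c ∈ s, u c l‖ ^ 2) (n ^ 2 * B₁) (n ^ 2 * B₂)

/-- PPA: powers of large primes. -/
def T_PPA : Prop := ∀ k : ℕ, 2 ≤ k → ∃ C₀ : ℝ, 1 ≤ C₀ ∧ ∀ (p m : ℕ) (F : ℤ[X]), p.Prime →
  k < p → F.natDegree ≤ k → Prm p F →
  Maj (p ^ m) (AA (p ^ m) F) (C₀ * ((m : ℝ) + 1) ^ 2)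
    (C₀ * ((m : ℝ) + 1) ^ 2 * ((p : ℝ) ^ m) ^ (-(2 / (k : ℝ))))

/-- PPB: powers of small primes. -/
def T_PPB : Prop := ∀ k : ℕ, 2 ≤ k → ∃ C₀ : ℝ, 1 ≤ C₀ ∧ ∀ (p m : ℕ) (F : ℤ[X]), p.Prime →
  p ≤ k → F.natDegree ≤ k → Prm p F →
  Maj (p ^ m) (AA (p ^ m) F) (C₀ * ((m : ℝ) + 1) ^ 2)
    (C₀ * ((m : ℝ) + 1) ^ 2 * ((p : ℝ) ^ m) ^ (-(2 / (k : ℝ))))

/-- MUL: products. -/
def T_MUL : Prop :=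
  (∀ (q₁ q₂ : ℕ) (F : ℤ[X]), 1 ≤ q₁ → 1 ≤ q₂ → q₁.Coprime q₂ → ∃ c₁ c₂ : ℤ,
    IsCoprime c₁ (q₁ : ℤ) ∧ IsCoprime c₂ (q₂ : ℤ) ∧
    ∀ l : ℤ, AA (q₁ * q₂) F l = AA q₁ (C c₁ * F) (c₁ * l) * AA q₂ (C c₂ * F) (c₂ * l)) ∧
  (∀ (q : ℕ) (c : ℤ) (A : ℤ → ℝ) (S₁ S₂ : ℝ), IsCoprime c (q : ℤ) → Maj q A S₁ S₂ →
    Maj q (fun l => A (c * l)) S₁ S₂) ∧
  ∀ (q₁ q₂ : ℕ) (A B : ℤ → ℝ) (S₁ S₂ S₃ S₄ : ℝ), 1 ≤ q₁ → 1 ≤ q₂ → q₁.Coprime q₂ →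
    (∀ l, 0 ≤ A l) → (∀ l, 0 ≤ B l) → Maj q₁ A S₁ S₂ → Maj q₂ B S₃ S₄ →
    Maj (q₁ * q₂) (fun l => A l * B l) (S₁ * S₃) (S₂ * S₄)

/-- DIV: a multiplicative bound. -/
def T_DIV : Prop := ∀ C₀ ε : ℝ, 1 ≤ C₀ → 0 < ε → ∃ C₁ : ℝ, 1 ≤ C₁ ∧ ∀ q : ℕ, 1 ≤ q →
  ∏ p ∈ q.primeFactors, (C₀ * ((q.factorization p : ℝ) + 1) ^ 2) ≤ C₁ * (q : ℝ) ^ ε

/-- ARP: the majorant for polynomials. -/
def T_ARP : Prop := ∀ k : ℕ, 2 ≤ k → ∀ ε : ℝ, 0 < ε → ∃ C₀ : ℝ, 1 ≤ C₀ ∧ ∀ (q : ℕ) (F : ℤ[X]),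
  1 ≤ q → F.natDegree ≤ k → (∀ p ∈ q.primeFactors, Prm p F) →
  Maj q (AA q F) (C₀ * (q : ℝ) ^ ε) (C₀ * (q : ℝ) ^ (ε - 2 / (k : ℝ)))

/-- ARI: the majorant. -/
def T_ARI : Prop := ∀ k : ℕ, 2 ≤ k → ∀ ε : ℝ, 0 < ε → ∃ C₀ : ℝ, 1 ≤ C₀ ∧
  ∀ (q : ℕ) (f : Fin k → ℤ), 1 ≤ q →
  (∀ d : ℕ, d ∣ q → (∀ i : Fin k, i.val ≠ 0 → (d : ℤ) ∣ f i) → d = 1) →
  Maj q (Pool.Agent.H24.LV.Al q f) (C₀ * (q : ℝ) ^ ε) (C₀ * (q : ℝ) ^ (ε - 2 / (k : ℝ)))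

end Pool.Agent.H26.LV
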