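import Pool.Agent.H26.LV.TargetsAri
import Pool.Agent.H12.LV.ARI
import Pool.Agent.H12.LV.TER
import Pool.Agent.H14.LV.QUA
import Pool.Agent.H14.LV.WEM
import Pool.Agent.H17.LV.VAL
import Pool.Agent.H19.LV.DOM
import Pool.Agent.H19.LV.NG
import Pool.Agent.H33.LV.PPA
import Pool.Agent.H46.LV.DSR
import Pool.Agent.H47.LV.DIV
import Pool.Agent.H47.LV.MJS
import Pool.Agent.H70.LV.ARP
import Pool.Agent.H70.LV.FLT
import Pool.Agent.H73.LV.MUL
import Pool.Agent.H73.LV.TRE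

/-!
# The arithmetic majorant: closed theorems (helper26)
-/

set_option autoImplicit false

namespace Pool.Agent.H26.LV

theorem aQUA : T_QUA := Pool.Agent.H14.LV.pf_QUA
theorem aWEM : T_WEM := Pool.Agent.H14.LV.pf_WEM
theorem aDSR : T_DSR := Pool.Agent.H46.LV.pf_DSR
theorem aVAL : T_VAL := Pool.Agent.H17.LV.pf_VAL
theorem aTER : T_TER := Pool.Agent.H12.LV.pf_TER aQUA aWEM aDSR aVAL
theorem aDOM : T_DOM := Pool.Agent.H19.LV.pf_DOM
theorem aNGA : T_NGA := Pool.Agent.H19.LV.pf_NGA aDOM aVAL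
theorem aNGB : T_NGB := Pool.Agent.H19.LV.pf_NGB aDOM aVAL
theorem aFLT : T_FLT := Pool.Agent.H70.LV.pf_FLT aTER aVAL
theorem aTRE : T_TRE := Pool.Agent.H73.LV.pf_TRE
theorem aMJS : T_MJS := Pool.Agent.H47.LV.pf_MJS
theorem aPPA : T_PPA := Pool.Agent.H33.LV.pf_PPA aTER aFLT aNGA aVAL aTRE aMJS
theorem aPPB : T_PPB := Pool.Agent.H33.LV.pf_PPB aTER aNGB aVAL aTRE aMJS
theorem aMUL : T_MUL := Pool.Agent.H73.LV.pf_MUL
theorem aDIV : T_DIV := Pool.Agent.H47.LV.pf_DIV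
theorem aARP : T_ARP := Pool.Agent.H70.LV.pf_ARP aPPA aPPB aMUL aDIV

/-- the arithmetic majorant -/
theorem ari : T_ARI := Pool.Agent.H12.LV.pf_ARI aARP

end Pool.Agent.H26.LV
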